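import Pool.Agent.H15.BOP.End
import Pool.Agent.H1.BO.YUN
import Pool.Agent.H4.BOP.VOL
import Pool.Agent.H11.BO.LFG
import Pool.Agent.H13.FLD.HL0
import Pool.Agent.H29.BO.YNU
import Pool.Agent.H36.FLD.NM0
import Pool.Agent.H49.BO.DEG
import Pool.Agent.H35.BO.PRG
import Pool.Agent.H57.BOP.YX
import Pool.Agent.H61.BO.CHG
import Pool.Agent.H64.BOP.YPI
import Pool.Agent.H64.FLD.HX0
import Pool.Agent.H69.BO.FAR
import Pool.Agent.H69.UK.TOU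
import Pool.Agent.H80.UK.CHU
import Pool.Agent.H85.BOP.YHV
import Pool.Agent.H85.BOP.YPA
import Pool.Agent.H95.BOP.CHD
import Pool.Agent.H95.FLC.CAPC
import Pool.Agent.H95.FLC.KRCX
import Pool.Agent.H95.FLD.EB0
import Pool.Agent.H95.FLD.LX0

/-!
MP_c62aed_lc, cutting planes for random CNFs, the optimal exponent: composition of the rows.
-/

set_option autoImplicit false

namespace Pool.Agent.H15.BOP

open Pool.Agent.H82.BO (T_YUN T_YX T_CHG)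

theorem cYUN : T_YUN :=
  Pool.Agent.H1.BO.pf_YUN (Pool.Agent.H64.BOP.pf_YPI
    (Pool.Agent.H85.BOP.pf_YPA Pool.Agent.H85.BOP.pf_YHV))

theorem cYX : T_YX :=
  Pool.Agent.H57.BOP.pf_YX cYUN Pool.Agent.H4.BOP.pf_VOL Pool.Agent.H69.BO.pf_FAR

theorem cCHG : T_CHG :=
  Pool.Agent.H61.BO.pf_CHG Pool.Agent.H80.UK.pf_CHU Pool.Agent.H69.UK.pf_TOU
    Pool.Agent.H95.BOP.pf_CHD

/-- helper82's form: refutations -/
theorem mainR : Pool.Agent.H82.BO.Main :=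
  Pool.Agent.H94.BO.pf_ENG
    (Pool.Agent.H49.BO.pf_DEG (Pool.Agent.H95.FLD.pf_EB0 Pool.Agent.H95.FLD.pf_LX0)
      Pool.Agent.H95.FLC.pf_KRCX Pool.Agent.H95.FLC.pf_CAPC Pool.Agent.H11.BO.pf_LFG
      Pool.Agent.H35.BO.pf_PRG)
    (Pool.Agent.H64.FLD.pf_HX0 Pool.Agent.H13.FLD.pf_HL0) cYX
    Pool.Agent.H29.BO.pf_YNU Pool.Agent.H36.FLD.pf_NM0 cCHG

/-- lines which exclude half of the assignments, and monotone real circuits -/
theorem mainB : Main :=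
  endB (Pool.Agent.H95.FLD.pf_EB0 Pool.Agent.H95.FLD.pf_LX0)
    Pool.Agent.H95.FLC.pf_KRCX Pool.Agent.H95.FLC.pf_CAPC Pool.Agent.H11.BO.pf_LFG
    (Pool.Agent.H64.FLD.pf_HX0 Pool.Agent.H13.FLD.pf_HL0) cYX
    Pool.Agent.H29.BO.pf_YNU Pool.Agent.H36.FLD.pf_NM0 cCHG

end Pool.Agent.H15.BOP
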