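import Pool.Agent.H15.BOP.Hrd
import Pool.Agent.H94.BO.ENG

/-!
MP_c62aed_lc, cutting planes for random CNFs, the optimal exponent: the final statement. The proof is
that of helper94 (`Pool/Agent/H94/BO/ENG.lean`).
-/

set_option autoImplicit false

namespace Pool.Agent.H15.BOP

open Finset
open Pool.Agent.H15.FLC (Half Violates InsC CovC KerC ErrC BRC ERC KRC BadC)
open Pool.Agent.H15.FLD (H0 tau0 Par0 T_EB0 T_HX0 T_NM0)
open Pool.Agent.H82.BO (RG YG T_LFG T_YX T_YNU T_CHG)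
open Pool.Agent.H94.BO (cardMono cardOr card_fst card_snd base_bd)

theorem endB (hEB0 : T_EB0) (hKRCX : Pool.Agent.H15.FLC.T_KRCX)
    (hCAPC : Pool.Agent.H15.FLC.T_CAPC) (hLFG : T_LFG) (hHX0 : T_HX0) (hYX : T_YX)
    (hYNU : T_YNU) (hNM0 : T_NM0) (hCHG : T_CHG) : Main := by
  obtain ⟨C₁, hC₁⟩ := hNM0
  obtain ⟨C₂, hC₂⟩ := hYNU
  refine ⟨C₁ + C₂ + 64, fun ε n t k l M μ h0 hε ht hnt h1 h2 h3 => ⟨fun hM hμ => ?_,
    fun h5 h6 => ?_⟩⟩
  · obtain ⟨b1, b2, b3⟩ := base_bd ε h0 hε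
    obtain ⟨β, hβ⟩ : ∃ β : ℝ, β = (2 : ℝ) ^ (-(3 * ε)) := ⟨_, rfl⟩
    rw [← hβ] at b1 b2 b3
    have hβ0 : 0 < β := h0.trans b1
    have hL0 : (0 : ℝ) ≤ Nat.log 2 t := Nat.cast_nonneg _
    have hk0 : (0 : ℝ) ≤ k := Nat.cast_nonneg _
    have hl0 : (0 : ℝ) ≤ l := Nat.cast_nonneg _
    have c1 : (0 : ℝ) ≤ C₁ := Nat.cast_nonneg _
    have c2 : (0 : ℝ) ≤ C₂ := Nat.cast_nonneg _
    push_cast at h1 h2 h3
    have a1 : 0 ≤ (C₁ : ℝ) * Nat.log 2 t := mul_nonneg c1 hL0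
    have a2 : 0 ≤ (C₂ : ℝ) * Nat.log 2 t := mul_nonneg c2 hL0
    have a3 : 0 ≤ (C₁ : ℝ) * k := mul_nonneg c1 hk0
    have a4 : 0 ≤ (C₂ : ℝ) * k := mul_nonneg c2 hk0
    have a5 : 0 ≤ (C₁ : ℝ) * l := mul_nonneg c1 hl0
    have a6 : 0 ≤ (C₂ : ℝ) * l := mul_nonneg c2 hl0
    have h1' : (C₁ : ℝ) * Nat.log 2 t ≤ ε ^ 2 * k := by linarith
    have h1'' : (C₂ : ℝ) * Nat.log 2 t ≤ ε ^ 2 * k := by linarith
    have h2'' : (C₂ : ℝ) * k ≤ ε ^ 2 * l := by linarith
    have h2' : (C₁ : ℝ) * k ≤ ε * n := by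
      have e1 : ε ^ 2 * l ≤ l := by
        have : ε ^ 2 ≤ 1 := by nlinarith
        nlinarith
      linarith
    obtain ⟨w, d, s₀, hP, hw, hs⟩ := hC₁ ε β n t k h0 b1 b2 ht hnt h1' h2'
    -- the side of x
    have hMb : (M : ℝ) * β ^ k ≤ 2 ^ ((1 - ε) * k) := by
      have e1 : β ^ k = (2 : ℝ) ^ (-(3 * ε) * k) := by
        rw [hβ, ← Real.rpow_natCast, ← Real.rpow_mul (by norm_num)]
      calc (M : ℝ) * β ^ k ≤ (2 : ℝ) ^ ((1 + 2 * ε) * k) * β ^ k :=
            mul_le_mul_of_nonneg_right hM (by positivity)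
        _ = 2 ^ ((1 - ε) * k) := by
            rw [e1, ← Real.rpow_add (by norm_num)]
            congr 1
            ring
    have hX := hHX0 ε β n k M w s₀ h0 hβ0 hw hMb hs
    -- the side of y
    obtain ⟨z, z1, z2, z3⟩ := hC₂ ε n t k l M w s₀ h0 hε ht h1'' h2'' hM
      (by rw [← hβ]; exact hw) hs
    have hμ' : (μ : ℝ) ≤ (2 : ℝ) ^ (-(ε * k)) * 2 ^ l := by
      rw [Real.rpow_neg (by norm_num), inv_mul_eq_div, le_div_iff₀ (by positivity)]
      exact hμ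
    have hY := hYX n l M μ w s₀ z ε ((2 : ℝ) ^ (-(ε * k))) h0 hε (by positivity)
      (Real.rpow_le_one_of_one_le_of_nonpos (by norm_num) (by
        have : 0 ≤ ε * k := mul_nonneg h0.le hk0
        linarith)) hμ' z1 z2 z3
    have hmono := cardMono (α := Formula n k l M μ) (P := fun F => ¬ Hard ε t F)
      (Q := fun F => (¬ H0 F.1 w s₀) ∨ ¬ YG F.2 w s₀) (by
        intro F hF
        by_contra hcon
        push Not at hcon
        have hle : ∀ s : ℕ, (s : ℝ) * 2 ^ ((1 - (β - ε)) * n) ≤ s * 2 ^ (4 * ε * n) := by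
          intro s
          apply mul_le_mul_of_nonneg_left _ (Nat.cast_nonneg s)
          apply Real.rpow_le_rpow_of_exponent_le (by norm_num)
          apply mul_le_mul_of_nonneg_right _ (Nat.cast_nonneg n)
          linarith
        have hH1 : ∀ (s : ℕ) (f g : ℕ → (Fin n → Bool) → ℝ) (i : ℕ), i < s →
            (Nat.card {y // ProofAt F t s f g y ∧
              2 ^ n ≤ 2 * Nat.card {x // f i x + g i y < 0}} : ℝ) ≤ s * 2 ^ (4 * ε * n) :=
          fun s f g i hi => (hard1 hEB0 hKRCX hCAPC hLFG (β - ε) t w d s₀ hP F hcon.1 hcon.2 s f g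
            i hi).trans (hle s)
        exact hF ⟨hH1, fun s h hC i a hi ha =>
          hard2 F t (by omega) (fun s => (s : ℝ) * 2 ^ (4 * ε * n)) hH1 s h hC i a hi ha⟩)
    have hor := cardOr (α := Formula n k l M μ) (fun F => ¬ H0 F.1 w s₀)
      (fun F => ¬ YG F.2 w s₀)
    have e1 := card_fst (β := Fin M × Fin μ → Half n l) (fun G : Fin M → Half n k => ¬ H0 G w s₀)
    have e2 := card_snd (α := Fin M → Half n k)
      (fun G : Fin M × Fin μ → Half n l => ¬ YG G w s₀)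
    have e3 : Nat.card (Formula n k l M μ) =
        Nat.card (Fin M → Half n k) * Nat.card (Fin M × Fin μ → Half n l) := Nat.card_prod _ _
    have hor' := hor.trans (add_le_add e1.le e2.le)
    rw [e3]
    refine le_trans (Nat.mul_le_mul_left _ (hmono.trans hor')) ?_
    generalize Nat.card {G : Fin M → Half n k // ¬ H0 G w s₀} = A at hX ⊢
    generalize Nat.card {G : Fin M × Fin μ → Half n l // ¬ YG G w s₀} = B at hY ⊢
    generalize Nat.card (Fin M → Half n k) = NA at hX ⊢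
    generalize Nat.card (Fin M × Fin μ → Half n l) = NB at hY ⊢
    have f1 : 2 ^ (n + 1) * A * NB ≤ NA * NB := Nat.mul_le_mul_right _ hX
    have f2 : NA * (2 ^ (n + 1) * B) ≤ NA * NB := Nat.mul_le_mul_left _ hY
    have f3 : 2 * (2 ^ n * (A * NB + NA * B)) = 2 ^ (n + 1) * A * NB + NA * (2 ^ (n + 1) * B) := by
      ring
    omega
  · refine hCHG ε n t k l M μ h0 (by linarith) (by omega) hnt ?_ ?_
    · refine le_trans ?_ h5
      push_cast
      have : (0 : ℝ) ≤ (C₁ + C₂) * (t * 2 ^ k) := by positivity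
      nlinarith
    · refine le_trans ?_ h6
      push_cast
      have : (0 : ℝ) ≤ (C₁ + C₂) * (t * 2 ^ (k + l)) := by positivity
      nlinarith

end Pool.Agent.H15.BOP
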