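import Pool.Agent.H15.BOP.Stmt
import Pool.Agent.H82.BO.Targets
import Pool.Agent.H39.FLC.PRC

/-!
MP_c62aed_lc, cutting planes for random CNFs, the optimal exponent: good formulas are hard.
The proofs are those of helper35 (`Pool/Agent/H35/BO/PRG.lean`) and helper49
(`Pool/Agent/H49/BO/DEG.lean`).
-/

set_option autoImplicit false

namespace Pool.Agent.H15.BOP

open Finset
open Pool.Agent.H15.FLC (Half Violates InsC CovC KerC ErrC BRC ERC KRC BadC)
open Pool.Agent.H15.FLD (H0 tau0 Par0 T_EB0)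
open Pool.Agent.H82.BO (RG YG T_LFG)
open Pool.Agent.H39.FLC (prc_mono prc_step)

variable {n k l M μ : ℕ}

/-- for good `y` every line has a small cover -/
theorem cover (F : Formula n k l M μ) (r w q t s : ℕ) (f g : ℕ → (Fin n → Bool) → ℝ)
    (hr : t + t * q ≤ r) (y : Fin n → Bool) (hR : ProofAt F t s f g y)
    (hF : ∀ i, i < s → ¬ BadC F.1 q (KRC F.1 r w f i) (RG F.2 y)) (i : ℕ) : i < s →
      ∃ T : Finset (Fin M), (∀ c ∈ T, c ∈ RG F.2 y) ∧ T.card ≤ q ∧
        CovC F.1 T (BRC (ERC F.1 r w f (i + 1)) (f i) (-(g i y))) := by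
  classical
  induction i using Nat.strong_induction_on with
  | _ i ih =>
    intro hi
    obtain ⟨P, T, hP, hT, hlt, himp⟩ := hR i hi
    choose TQ hTQ1 hTQ2 hTQ3 using fun (j : ℕ) (hj : j ∈ P) => ih j (hlt j hj) ((hlt j hj).trans hi)
    let S1 : Finset (Fin M) := P.attach.biUnion fun p => TQ p.1 p.2
    let S2 : Finset (Fin M) := (T.filter fun c => Violates (F.2 c) y).image Prod.fst
    have hS : ∀ c ∈ S1 ∪ S2, c ∈ RG F.2 y := by
      intro c hc
      rcases Finset.mem_union.1 hc with h | h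
      · obtain ⟨p, -, hp⟩ := Finset.mem_biUnion.1 h
        exact hTQ1 p.1 p.2 c hp
      · obtain ⟨b, hb, rfl⟩ := Finset.mem_image.1 h
        exact ⟨b.2, (Finset.mem_filter.1 hb).2⟩
    have hc1 : S1.card ≤ t * q := by
      have h1 := Finset.card_biUnion_le_card_mul P.attach (fun p => TQ p.1 p.2) q
        (fun p _ => hTQ2 p.1 p.2)
      rw [Finset.card_attach] at h1
      exact h1.trans (Nat.mul_le_mul_right q hP)
    have hc2 : S2.card ≤ t := Finset.card_image_le.trans ((Finset.card_filter_le _ _).trans hT)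
    have hcard : (S1 ∪ S2).card ≤ r := by
      have h1 := Finset.card_union_le S1 S2
      omega
    refine prc_step F.1 r w q f _ i (-(g i y)) (hF i hi) (S1 ∪ S2) hS hcard ?_
    intro x hx
    rw [BRC, mem_filter] at hx
    obtain ⟨_, hx1, hx2⟩ := hx
    have h1 : ¬ ((∀ j ∈ P, 0 ≤ f j x + g j y) ∧ ∀ c ∈ T, ¬ False2 F c x y) := by
      intro h
      have h2 := himp x h.1 h.2
      linarith
    rw [not_and_or] at h1
    rcases h1 with h1 | h1
    · push Not at h1
      obtain ⟨j, hj, hxj⟩ := h1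
      obtain ⟨c, hc, hv⟩ := hTQ3 j hj x (by
        rw [BRC, mem_filter]
        refine ⟨mem_univ _, ?_, by linarith⟩
        intro hh
        exact hx1 (prc_mono _ r w f (Nat.succ_le_of_lt (hlt j hj)) hh))
      exact ⟨c, Finset.mem_union_left _ (Finset.mem_biUnion.2
        ⟨⟨j, hj⟩, Finset.mem_attach _ _, hc⟩), hv⟩
    · push Not at h1
      obtain ⟨c, hc, hf⟩ := h1
      exact ⟨c.1, Finset.mem_union_right _ (Finset.mem_image.2
        ⟨c, Finset.mem_filter.2 ⟨hc, hf.2⟩, rfl⟩), hf.1⟩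

/-- few half clauses are inside a small set -/
theorem hrd_ins {m : ℕ} {H : Fin m → Half n k} {w s₀ : ℕ} (h : H0 H w s₀)
    (p : Finset (Fin n) × (Fin n → Bool)) (hp : p.1.card < w) :
    Nat.card {c // InsC H p c} ≤ s₀ := h p.1 (by omega) p.2

/-- part (1) -/
theorem hard1 (hEB0 : T_EB0) (hKRCX : Pool.Agent.H15.FLC.T_KRCX)
    (hCAPC : Pool.Agent.H15.FLC.T_CAPC) (hLFG : T_LFG) (γ : ℝ) (t w d s₀ : ℕ)
    (P : Par0 γ n t k w d s₀) (F : Formula n k l M μ) (h1 : H0 F.1 w s₀) (h2 : YG F.2 w s₀)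
    (s : ℕ) (f g : ℕ → (Fin n → Bool) → ℝ) (i₀ : ℕ) (hi₀ : i₀ < s) :
    (Nat.card {y // ProofAt F t s f g y ∧ 2 ^ n ≤ 2 * Nat.card {x // f i₀ x + g i₀ y < 0}} : ℝ) ≤
      s * 2 ^ ((1 - γ) * n) := by
  classical
  obtain ⟨Y, hYdef⟩ : ∃ Y : Finset (Fin n → Bool), Y = univ.filter fun y =>
      ProofAt F t s f g y ∧ 2 ^ n ≤ 2 * Nat.card {x // f i₀ x + g i₀ y < 0} := ⟨_, rfl⟩
  have hYc : Nat.card {y // ProofAt F t s f g y ∧
      2 ^ n ≤ 2 * Nat.card {x // f i₀ x + g i₀ y < 0}} = Y.card := by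
    rw [Nat.card_eq_fintype_card, Fintype.card_subtype, hYdef]
  rw [hYc]
  by_contra hs
  rw [not_le] at hs
  set r : ℕ := t + t * s₀ with hrdef
  set H : Fin M → Half n k := F.1 with hH
  have hcardN : Fintype.card (Fin n → Bool) = 2 ^ n := by
    rw [Fintype.card_fun, Fintype.card_bool, Fintype.card_fin]
  have hs0 : (0 : ℝ) ≤ s := Nat.cast_nonneg _
  have hYn : (Y.card : ℝ) ≤ 2 ^ n := by
    have h3 := card_le_univ Y
    rw [hcardN] at h3
    exact_mod_cast h3
  -- the bad assignments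
  have hbad : ∀ i, (univ.filter fun y : Fin n → Bool =>
      BadC H s₀ (KRC H r w f i) (RG F.2 y)).card ≤ s₀ ^ (s₀ + 1) * 2 ^ (n - w) := by
    intro i
    have := hLFG H (fun y => RG F.2 y) w s₀ s₀ (2 ^ (n - w)) (fun p hp => hrd_ins h1 p hp)
      (fun T hT => h2 T hT) (KRC H r w f i) (hKRCX H r w f i).1
      (hKRCX H r w f i).2
    rw [Nat.card_eq_fintype_card, Fintype.card_subtype] at this
    exact this
  obtain ⟨y, hyY, hy⟩ : ∃ y ∈ Y, ∀ i, i < s →
      ¬ BadC H s₀ (KRC H r w f i) (RG F.2 y) := by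
    by_contra hcon
    push Not at hcon
    have hsub : Y ⊆ (range s).biUnion fun i =>
        univ.filter fun y : Fin n → Bool => BadC H s₀ (KRC H r w f i) (RG F.2 y) := by
      intro y hy
      obtain ⟨i, hi, hb⟩ := hcon y hy
      rw [mem_biUnion]
      exact ⟨i, mem_range.mpr hi, mem_filter.mpr ⟨mem_univ _, hb⟩⟩
    have hc1 : Y.card ≤ s * (s₀ ^ (s₀ + 1) * 2 ^ (n - w)) := by
      have h3 := card_le_card hsub
      refine h3.trans (card_biUnion_le.trans ?_)
      refine (sum_le_sum fun i _ => hbad i).trans ?_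
      rw [sum_const, card_range, smul_eq_mul]
    have hc2 : (Y.card : ℝ) ≤ s * ((s₀ ^ (s₀ + 1) * 2 ^ (n - w) : ℕ) : ℝ) := by
      have : (Y.card : ℝ) ≤ ((s * (s₀ ^ (s₀ + 1) * 2 ^ (n - w)) : ℕ) : ℝ) := by
        exact_mod_cast hc1
      rw [Nat.cast_mul s] at this
      exact this
    have hc3 := P.bad4
    have hc4 : 4 * (Y.card : ℝ) ≤ s * 2 ^ ((1 - γ) * n) := by
      calc 4 * (Y.card : ℝ) ≤ 4 * (s * ((s₀ ^ (s₀ + 1) * 2 ^ (n - w) : ℕ) : ℝ)) := by linarith
        _ = s * (4 * ((s₀ ^ (s₀ + 1) * 2 ^ (n - w) : ℕ) : ℝ)) := by ring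
        _ ≤ s * 2 ^ ((1 - γ) * n) := mul_le_mul_of_nonneg_left hc3 hs0
    have hc5 : (0 : ℝ) ≤ s * 2 ^ ((1 - γ) * n) := by positivity
    linarith
  -- the line `i₀`
  rw [hYdef, mem_filter] at hyY
  obtain ⟨-, hRy, hhalf⟩ := hyY
  obtain ⟨T, -, hTc, hTcov⟩ := cover F r w s₀ t s f g le_rfl y hRy hy i₀ hi₀
  have hB := hCAPC F.1 s₀ T _ hTc hTcov
  have hE := hEB0 F.1 r w d s₀ P.rr P.wn h1 f (i₀ + 1)
  have hE' : (ERC F.1 r w f (i₀ + 1)).card ≤ s * tau0 n w d s₀ :=
    hE.trans (Nat.mul_le_mul_right _ hi₀)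
  have hcov : (univ.filter fun x : Fin n → Bool => f i₀ x + g i₀ y < 0) ⊆
      ERC F.1 r w f (i₀ + 1) ∪ BRC (ERC F.1 r w f (i₀ + 1)) (f i₀) (-(g i₀ y)) := by
    intro x hx0
    rw [mem_filter] at hx0
    rw [mem_union]
    by_cases hx : x ∈ ERC F.1 r w f (i₀ + 1)
    · exact Or.inl hx
    · refine Or.inr ?_
      unfold BRC
      rw [mem_filter]
      refine ⟨mem_univ _, hx, ?_⟩
      have := hx0.2
      linarith
  have hhalf' : 2 ^ n ≤ 2 * (univ.filter fun x : Fin n → Bool => f i₀ x + g i₀ y < 0).card := by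
    have h4 : Nat.card {x // f i₀ x + g i₀ y < 0} =
        (univ.filter fun x : Fin n → Bool => f i₀ x + g i₀ y < 0).card := by
      rw [Nat.card_eq_fintype_card, Fintype.card_subtype]
    rw [h4] at hhalf
    exact hhalf
  have hN : 2 ^ n ≤ 2 * (s * tau0 n w d s₀ + s₀ * 2 ^ (n - k)) := by
    have h3 := card_le_card hcov
    have h4 := h3.trans ((card_union_le _ _).trans (Nat.add_le_add hE' hB))
    omega
  have hN' : (2 : ℝ) ^ n ≤ 2 * (s * (tau0 n w d s₀ : ℝ) + ((s₀ * 2 ^ (n - k) : ℕ) : ℝ)) := by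
    have : (((2 ^ n : ℕ)) : ℝ) ≤ ((2 * (s * tau0 n w d s₀ + s₀ * 2 ^ (n - k)) : ℕ) : ℝ) := by
      exact_mod_cast hN
    rw [Nat.cast_mul 2, Nat.cast_add, Nat.cast_mul s] at this
    simpa using this
  have hT4 : 4 * (s * (tau0 n w d s₀ : ℝ)) ≤ s * 2 ^ ((1 - γ) * n) := by
    calc 4 * (s * (tau0 n w d s₀ : ℝ)) = s * (4 * (tau0 n w d s₀ : ℝ)) := by ring
      _ ≤ s * 2 ^ ((1 - γ) * n) := mul_le_mul_of_nonneg_left P.tau4 hs0
  have hC4 : 4 * ((s₀ * 2 ^ (n - k) : ℕ) : ℝ) < 2 ^ n := by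
    have : ((4 * (s₀ * 2 ^ (n - k)) : ℕ) : ℝ) < ((2 ^ n : ℕ) : ℝ) := by
      exact_mod_cast P.cov
    rw [Nat.cast_mul 4] at this
    simpa using this
  linarith

/-- part (2) follows from part (1) -/
theorem hard2 (F : Formula n k l M μ) (t : ℕ) (ht : 1 ≤ t) (b : ℕ → ℝ)
    (h1 : ∀ (s : ℕ) (f g : ℕ → (Fin n → Bool) → ℝ) (i : ℕ), i < s →
      (Nat.card {y // ProofAt F t s f g y ∧ 2 ^ n ≤ 2 * Nat.card {x // f i x + g i y < 0}} : ℝ) ≤
        b s)
    (s : ℕ) (h : ℕ → Set (Fin M) → ℝ) (hC : Circuit t s h) (i : ℕ) (a : ℝ) (hi : i < s)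
    (ha : 2 ^ n ≤ 2 * Nat.card {x // h i (SatBy F x) < a}) :
    (Nat.card {y // a ≤ h i (At F y)} : ℝ) ≤ b s := by
  classical
  refine le_trans ?_ (h1 s (fun j x => h j (SatBy F x)) (fun j y => -(h j (At F y))) i hi)
  rw [Nat.cast_le]
  have key : ∀ y, a ≤ h i (At F y) →
      ProofAt F t s (fun j x => h j (SatBy F x)) (fun j y => -(h j (At F y))) y ∧
        2 ^ n ≤ 2 * Nat.card {x // h i (SatBy F x) + -(h i (At F y)) < 0} := by
    intro y hy
    refine ⟨?_, ?_⟩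
    · intro j hj
      rcases hC j hj with ⟨c, hc⟩ | ⟨J, hJ, hlt, hmon⟩
      · by_cases hcy : c ∈ At F y
        · obtain ⟨j', hj'⟩ := hcy
          refine ⟨∅, {(c, j')}, by simp, by simpa using ht, by simp, ?_⟩
          intro x _ hx
          have hx1 : ¬ False2 F (c, j') x y := hx _ (mem_singleton_self _)
          have hx2 : c ∈ SatBy F x := by
            intro hv
            exact hx1 ⟨hv, hj'⟩
          have h3 := (hc (SatBy F x)).1 hx2
          have h4 := (hc (At F y)).1 ⟨j', hj'⟩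
          show 0 ≤ h j (SatBy F x) + -(h j (At F y))
          rw [h3, h4]
          norm_num
        · refine ⟨∅, ∅, by simp, by simp, by simp, ?_⟩
          intro x _ _
          have h4 := (hc (At F y)).2 hcy
          show 0 ≤ h j (SatBy F x) + -(h j (At F y))
          rw [h4]
          by_cases hx2 : c ∈ SatBy F x
          · rw [(hc _).1 hx2]
            norm_num
          · rw [(hc _).2 hx2]
            norm_num
      · refine ⟨J, ∅, hJ, by simp, hlt, ?_⟩
        intro x hx _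
        have h3 := hmon (At F y) (SatBy F x) (fun j' hj' => by
          have := hx j' hj'
          linarith)
        show 0 ≤ h j (SatBy F x) + -(h j (At F y))
        linarith
    · refine ha.trans (Nat.mul_le_mul_left 2 ?_)
      refine Nat.card_le_card_of_injective (fun x : {x // h i (SatBy F x) < a} =>
        (⟨x.1, by have := x.2; linarith⟩ :
          {x // h i (SatBy F x) + -(h i (At F y)) < 0})) ?_
      intro u v huv
      exact Subtype.ext (congrArg (fun z => z.1) huv)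
  refine Nat.card_le_card_of_injective (fun y : {y // a ≤ h i (At F y)} =>
    (⟨y.1, key y.1 y.2⟩ : {y // ProofAt F t s (fun j x => h j (SatBy F x))
      (fun j y => -(h j (At F y))) y ∧
        2 ^ n ≤ 2 * Nat.card {x // h i (SatBy F x) + -(h i (At F y)) < 0}})) ?_
  intro u v huv
  exact Subtype.ext (congrArg (fun z => z.1) huv)

end Pool.Agent.H15.BOP
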