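import Pool.Agent.H15.FLC.Stmt

/-!
MP_c62aed_lc: separable inequalities and monotone real circuits for random CNFs, the optimal
exponent. The definitions used by the statement (with helper82). `Half` and `Violates` are those of
`Pool/Agent/H15/FLC/Stmt.lean`.

The variables are `x_i` and `y_i`, `i : Fin n`. An assignment is a pair `(x, y)`.
-/

set_option autoImplicit false

namespace Pool.Agent.H15.BOP

open Pool.Agent.H15.FLC (Half Violates)

/-- `F = (C, D)` stands for the CNF with the clauses `C i ∨ D (i, j)`, `i < M`, `j < μ`, where `C i`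
is a clause with `k` literals of the variables `x` and `D (i, j)` is a clause with `l` literals of
the variables `y`. -/
abbrev Formula (n k l M μ : ℕ) : Type := (Fin M → Half n k) × (Fin M × Fin μ → Half n l)

section

variable {n k l M μ : ℕ}

/-- The clause number `c = (i, j)` is false under the assignment `(x, y)`. -/
def False2 (F : Formula n k l M μ) (c : Fin M × Fin μ) (x y : Fin n → Bool) : Prop :=
  Violates (F.1 c.1) x ∧ Violates (F.2 c) y

/-- For one value of the variables `y`: every one of the inequalities `0 ≤ f i x + g i y`, `i < s`,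
for the variables `x` follows from at most `t` earlier ones and at most `t` clauses of `F`. -/
def ProofAt (F : Formula n k l M μ) (t s : ℕ) (f g : ℕ → (Fin n → Bool) → ℝ)
    (y : Fin n → Bool) : Prop :=
  ∀ i, i < s → ∃ (P : Finset ℕ) (T : Finset (Fin M × Fin μ)), P.card ≤ t ∧ T.card ≤ t ∧
    (∀ j ∈ P, j < i) ∧ ∀ x, (∀ j ∈ P, 0 ≤ f j x + g j y) → (∀ c ∈ T, ¬ False2 F c x y) →
      0 ≤ f i x + g i y

/-- `h 0, .., h (s - 1)` are the functions computed by the `s` gates of a monotone real circuit
whose input is a set `S` of indices: every gate tells whether a certain index is in `S`, or it is a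
nondecreasing real function of at most `t` earlier gates. -/
def Circuit (t s : ℕ) (h : ℕ → Set (Fin M) → ℝ) : Prop :=
  ∀ i, i < s → (∃ c : Fin M, ∀ S, (c ∈ S → h i S = 1) ∧ (c ∉ S → h i S = 0)) ∨
    ∃ J : Finset ℕ, J.card ≤ t ∧ (∀ j ∈ J, j < i) ∧
      ∀ S S', (∀ j ∈ J, h j S ≤ h j S') → h i S ≤ h i S'

/-- The clauses `C i` which are true under `x`. -/
def SatBy (F : Formula n k l M μ) (x : Fin n → Bool) : Set (Fin M) :=
  {i | ¬ Violates (F.1 i) x}

/-- The clauses `C i` which must be true when the variables `y` have the value `y`: some `D (i, j)`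
is false under `y`. These clauses are the CNF `F_y` for the variables `x`. -/
def At (F : Formula n k l M μ) (y : Fin n → Bool) : Set (Fin M) :=
  {i | ∃ j, Violates (F.2 (i, j)) y}

/-- With `e = 4 ε n`: (1) given `s` inequalities `0 ≤ f i x + g i y`, for at most `s 2 ^ e` of the
values `y` they can be derived from `F` and the inequality number `i` excludes at least half of the
assignments `x`; (2) a monotone real circuit with `s` gates of fan-in at most `t` (the gate `i`
accepts when its value is at least `a`) which rejects the set `SatBy F x` for at least half of the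
`x` accepts the CNF `F_y` for at most `s 2 ^ e` of the values `y`. -/
def Hard (ε : ℝ) (t : ℕ) (F : Formula n k l M μ) : Prop :=
  (∀ (s : ℕ) (f g : ℕ → (Fin n → Bool) → ℝ) (i : ℕ), i < s →
    (Nat.card {y // ProofAt F t s f g y ∧ 2 ^ n ≤ 2 * Nat.card {x // f i x + g i y < 0}} : ℝ) ≤
      s * 2 ^ (4 * ε * n)) ∧
  ∀ (s : ℕ) (h : ℕ → Set (Fin M) → ℝ), Circuit t s h → ∀ (i : ℕ) (a : ℝ), i < s →
    2 ^ n ≤ 2 * Nat.card {x // h i (SatBy F x) < a} →
      (Nat.card {y // a ≤ h i (At F y)} : ℝ) ≤ s * 2 ^ (4 * ε * n)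

end

/-- The final statement. -/
def Main : Prop :=
  ∃ C : ℕ, ∀ (ε : ℝ) (n t k l M μ : ℕ), 0 < ε → ε ≤ 1 / 4 → 2 ≤ t → n ≤ t →
    C * Nat.log 2 t ≤ ε ^ 2 * k → C * k ≤ ε ^ 2 * l → C * l ≤ ε * n →
      (M ≤ (2 : ℝ) ^ ((1 + 2 * ε) * k) → μ * (2 : ℝ) ^ (ε * k) ≤ 2 ^ l →
        2 ^ n * Nat.card {F : Formula n k l M μ // ¬ Hard ε t F} ≤
          Nat.card (Formula n k l M μ)) ∧
      (C * t * 2 ^ k ≤ ε ^ 2 * M → C * t * 2 ^ (k + l) ≤ ε ^ 2 * (M * μ) →
        2 ^ t * Nat.card {F : Formula n k l M μ //
          ∃ x y, (Nat.card {c // False2 F c x y} : ℝ) < (1 - ε) * (M * μ) / 2 ^ (k + l)} ≤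
            Nat.card (Formula n k l M μ))

end Pool.Agent.H15.BOP
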